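import Mathlib
import Pool.Agent.Helper73.SM.GoalsK

/-!
# Project KR (MP_c307ca_nt), packet KSM: the prime factors of `DK k m n`
-/

set_option autoImplicit false

namespace Pool.Agent.Helper77.SM

open Finset Pool.Agent.Helper73.SM

/-- the factor `k (j + 1) + s` -/
def fa (k : ℕ) (s : ℤ) (j : ℕ) : ℕ := ((k : ℤ) * ((j : ℤ) + 1) + s).toNat

theorem fa_cast {k m : ℕ} {s : ℤ} (hk : Ok k m) (hs : s = m ∨ s = -(m : ℤ)) (j : ℕ) :
    ((fa k s j : ℕ) : ℤ) = (k : ℤ) * ((j : ℤ) + 1) + s := by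
  obtain ⟨_, _, hmk, _⟩ := hk
  have h1 : (k : ℤ) ≤ (k : ℤ) * ((j : ℤ) + 1) := by nlinarith [Int.natCast_nonneg k, Int.natCast_nonneg j]
  unfold fa
  rw [Int.toNat_of_nonneg]
  rcases hs with h | h <;> rw [h] <;> omega

theorem fa_pos {k m : ℕ} {s : ℤ} (hk : Ok k m) (hs : s = m ∨ s = -(m : ℤ)) (j : ℕ) :
    0 < fa k s j := by
  have h0 := fa_cast hk hs j
  obtain ⟨_, _, hmk, _⟩ := hk
  have h1 : (k : ℤ) ≤ (k : ℤ) * ((j : ℤ) + 1) := by nlinarith [Int.natCast_nonneg k, Int.natCast_nonneg j]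
  rcases hs with h | h <;> rw [h] at h0 <;> rw [h] <;> omega

theorem fa_le {k m : ℕ} {s : ℤ} (hk : Ok k m) (hs : s = m ∨ s = -(m : ℤ)) {n j : ℕ} (hj : j < n) :
    fa k s j ≤ k * n + m := by
  have h0 := fa_cast hk hs j
  have h1 : (k : ℤ) * ((j : ℤ) + 1) ≤ (k : ℤ) * n := by
    refine mul_le_mul_of_nonneg_left ?_ (Int.natCast_nonneg k)
    omega
  have h2 : ((fa k s j : ℕ) : ℤ) ≤ ((k * n + m : ℕ) : ℤ) := by
    rw [h0]
    push_cast
    rcases hs with h | h <;> rw [h] <;> omega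
  exact_mod_cast h2

theorem ck_prod (hCZ : StmtKCZ) {k m : ℕ} {s : ℤ} (hk : Ok k m) (hs : s = m ∨ s = -(m : ℤ))
    (n : ℕ) : (ck k s n n).natAbs * n.factorial = k ^ n * ∏ j ∈ range n, fa k s j := by
  have h1 := hCZ.mul k s n n
  have h2 : ∏ i ∈ range n, ((k : ℤ) * (n : ℤ) + s - (k : ℤ) * (i : ℤ)) =
      ∏ j ∈ range n, ((fa k s j : ℕ) : ℤ) := by
    rw [← Finset.prod_range_reflect (fun j => ((fa k s j : ℕ) : ℤ)) n]
    refine Finset.prod_congr rfl fun i hi => ?_
    have hi' := mem_range.1 hi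
    rw [fa_cast hk hs]
    have h3 : ((n - 1 - i : ℕ) : ℤ) = (n : ℤ) - 1 - i := by omega
    rw [h3]
    ring
  rw [h2] at h1
  have h4 := congrArg Int.natAbs h1
  rw [Int.natAbs_mul, Int.natAbs_mul, Int.natAbs_pow, Int.natAbs_natCast, Int.natAbs_natCast] at h4
  rw [h4]
  congr 1
  have h5 : (∏ j ∈ range n, ((fa k s j : ℕ) : ℤ)) = ((∏ j ∈ range n, fa k s j : ℕ) : ℤ) := by
    push_cast
    rfl
  rw [h5, Int.natAbs_natCast]

theorem cnt_le {k m p : ℕ} {s : ℤ} (hk : Ok k m) (hs : s = m ∨ s = -(m : ℤ)) (hp : p.Prime)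
    (hpk : ¬ p ∣ k) (n i : ℕ) :
    ((range n).filter fun j => p ^ i ∣ fa k s j).card ≤ n / p ^ i + 1 := by
  have h : ((range n).filter fun j => p ^ i ∣ fa k s j).card ≤ (range (n / p ^ i + 1)).card := by
    refine Finset.card_le_card_of_injOn (fun j => j / p ^ i) ?_ ?_
    · intro j hj
      rw [Finset.mem_coe, mem_filter, mem_range] at hj
      rw [Finset.mem_coe, mem_range]
      exact Nat.lt_succ_of_le (Nat.div_le_div_right hj.1.le)
    · intro j hj l hl hjl
      rw [Finset.mem_coe, mem_filter, mem_range] at hj hl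
      have h1 : ((p ^ i : ℕ) : ℤ) ∣ ((fa k s j : ℕ) : ℤ) := by exact_mod_cast hj.2
      have h2 : ((p ^ i : ℕ) : ℤ) ∣ ((fa k s l : ℕ) : ℤ) := by exact_mod_cast hl.2
      have h3 := dvd_sub h1 h2
      rw [fa_cast hk hs, fa_cast hk hs] at h3
      have h4 : (k : ℤ) * ((j : ℤ) + 1) + s - ((k : ℤ) * ((l : ℤ) + 1) + s) =
        (k : ℤ) * ((j : ℤ) - l) := by ring
      rw [h4] at h3
      have hc : Nat.Coprime (p ^ i) k :=
        Nat.Coprime.pow_left _ ((Nat.Prime.coprime_iff_not_dvd hp).2 hpk)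
      have hc' : IsCoprime ((p ^ i : ℕ) : ℤ) (k : ℤ) := Nat.isCoprime_iff_coprime.2 hc
      have h5 := hc'.dvd_of_dvd_mul_left h3
      have h6 : j ≡ l [MOD p ^ i] := (Nat.modEq_iff_dvd.2 (by
        have h7 := dvd_neg.2 h5
        rwa [neg_sub] at h7))
      have h8 : j % p ^ i = l % p ^ i := h6
      have h9 : j / p ^ i = l / p ^ i := hjl
      rw [← Nat.div_add_mod j (p ^ i), ← Nat.div_add_mod l (p ^ i), h8, h9]
  rwa [card_range] at h

theorem ck_ne (hCZ : StmtKCZ) {k m : ℕ} {s : ℤ} (hk : Ok k m) (hs : s = m ∨ s = -(m : ℤ))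
    (n : ℕ) : (ck k s n n).natAbs ≠ 0 := by
  intro h
  have h1 := ck_prod hCZ hk hs n
  rw [h, zero_mul] at h1
  have h2 : 0 < k ^ n * ∏ j ∈ range n, fa k s j := by
    refine Nat.mul_pos (Nat.pow_pos (by have := hk.1; omega)) ?_
    exact Finset.prod_pos fun j _ => fa_pos hk hs j
  omega

theorem ck_pow (hCZ : StmtKCZ) {k m p : ℕ} {s : ℤ} (hk : Ok k m) (hs : s = m ∨ s = -(m : ℤ))
    (hp : p.Prime) (hpk : ¬ p ∣ k) (n : ℕ) : p ^ padicValInt p (ck k s n n) ≤ k * n + m := by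
  have : Fact p.Prime := ⟨hp⟩
  have hx : k * n + m ≠ 0 := by have := hk.2.1; omega
  set b := Nat.log p (k * n + m) + 1 with hb
  have hpb : k * n + m < p ^ b := Nat.lt_pow_succ_log_self hp.one_lt _
  have h1 := ck_prod hCZ hk hs n
  have hck := ck_ne hCZ hk hs n
  have hne : ∀ j ∈ range n, fa k s j ≠ 0 := fun j _ => (fa_pos hk hs j).ne'
  have h2 := congrArg (padicValNat p) h1
  rw [padicValNat.mul hck (Nat.factorial_ne_zero n),
    padicValNat.mul (pow_ne_zero _ (by have := hk.1; omega)) (Finset.prod_ne_zero_iff.2 hne),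
    padicValNat.eq_zero_of_not_dvd (fun h => hpk (hp.dvd_of_dvd_pow h)), zero_add] at h2
  have hn : Nat.log p n < b := by
    rw [hb]
    refine Nat.lt_succ_of_le (Nat.log_mono_right ?_)
    have := hk.1
    nlinarith
  have h3 : padicValNat p (∏ j ∈ range n, fa k s j) =
      ∑ i ∈ Ico 1 b, ((range n).filter fun j => p ^ i ∣ fa k s j).card := by
    rw [← Nat.factorization_def _ hp, Nat.factorization_prod hne, Finsupp.finsetSum_apply]
    have h4 : ∀ j ∈ range n, (fa k s j).factorization p =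
        ∑ i ∈ Ico 1 b, if p ^ i ∣ fa k s j then 1 else 0 := by
      intro j hj
      rw [Nat.factorization_eq_card_pow_dvd_of_lt hp (fa_pos hk hs j)
        ((fa_le hk hs (mem_range.1 hj)).trans_lt hpb), card_filter]
    rw [Finset.sum_congr rfl h4, Finset.sum_comm]
    refine Finset.sum_congr rfl fun i _ => ?_
    rw [card_filter]
  rw [h3, padicValNat_factorial hn] at h2
  have h5 : ∑ i ∈ Ico 1 b, ((range n).filter fun j => p ^ i ∣ fa k s j).card ≤
      ∑ i ∈ Ico 1 b, (n / p ^ i + 1) := Finset.sum_le_sum fun i _ => cnt_le hk hs hp hpk n i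
  rw [Finset.sum_add_distrib, Finset.sum_const, Nat.card_Ico, smul_eq_mul, mul_one] at h5
  have h6 : padicValInt p (ck k s n n) ≤ Nat.log p (k * n + m) := by
    unfold padicValInt
    omega
  exact (Nat.pow_le_pow_right hp.pos h6).trans (Nat.pow_log_le_self p hx)

theorem goalKSM (hCZ : StmtKCZ) (hDT : StmtKDT) : StmtKSM where
  pow := by
    intro k m n p hk hp hpk
    have : Fact p.Prime := ⟨hp⟩
    have hm1 := hk.2.1
    have hmk := hk.2.2.1
    have h1 := hDT.mul k m n hm1 hmk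
    have hD := hDT.pos k m n hm1 hmk
    have hs1 : (m : ℤ) = m ∨ (m : ℤ) = -(m : ℤ) := Or.inl rfl
    have hs2 : -(m : ℤ) = m ∨ -(m : ℤ) = -(m : ℤ) := Or.inr rfl
    have c1 := ck_pow hCZ hk hs1 hp hpk n
    have c2 := ck_pow hCZ hk hs2 hp hpk n
    have n1 : ck k (m : ℤ) n n ≠ 0 := Int.natAbs_ne_zero.1 (ck_ne hCZ hk hs1 n)
    have n2 : ck k (-(m : ℤ)) n n ≠ 0 := Int.natAbs_ne_zero.1 (ck_ne hCZ hk hs2 n)
    have hk0 : (k : ℤ) ≠ 0 := by have := hk.1; omega
    have hm0 : (2 * (m : ℤ)) ≠ 0 := by omega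
    have h2 := congrArg (padicValInt p) h1
    rw [padicValInt.mul (by omega) (by omega), padicValInt.mul (mul_ne_zero (mul_ne_zero hm0 hk0) n1) n2,
      padicValInt.mul (mul_ne_zero hm0 hk0) n1, padicValInt.mul hm0 hk0] at h2
    have h3 : padicValInt p (k : ℤ) = 0 := by
      rw [padicValInt.of_nat]
      exact padicValNat.eq_zero_of_not_dvd hpk
    have h4 : p ^ padicValInt p (2 * (m : ℤ)) ≤ 2 * m := by
      have h5 : padicValInt p (2 * (m : ℤ)) = padicValNat p (2 * m) := by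
        have h6 : (2 * (m : ℤ)) = ((2 * m : ℕ) : ℤ) := by push_cast; ring
        rw [h6, padicValInt.of_nat]
      rw [h5]
      exact Nat.le_of_dvd (by omega) pow_padicValNat_dvd
    rw [h3, add_zero] at h2
    have h5 : p ^ padicValInt p (DK k m n) ≤
        p ^ (padicValInt p (2 * (m : ℤ)) + padicValInt p (ck k (m : ℤ) n n) +
          padicValInt p (ck k (-(m : ℤ)) n n)) := Nat.pow_le_pow_right hp.pos (by omega)
    refine h5.trans ?_
    rw [pow_add, pow_add]
    calc p ^ padicValInt p (2 * (m : ℤ)) * p ^ padicValInt p (ck k (m : ℤ) n n) *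
          p ^ padicValInt p (ck k (-(m : ℤ)) n n)
        ≤ (2 * m) * (k * n + m) * (k * n + m) := by gcongr
      _ ≤ (2 * k) * (k * n + k) * (k * n + k) := by gcongr
      _ = 2 * k * (k * n + k) ^ 2 := by ring
  le := by
    intro k m n p hk hp hpd
    have hm1 := hk.2.1
    have hmk := hk.2.2.1
    have hk3 := hk.1
    have h1 := hDT.mul k m n hm1 hmk
    have hpp : Prime (p : ℤ) := Nat.prime_iff_prime_int.1 hp
    have h2 : (p : ℤ) ∣ 2 * (m : ℤ) * (k : ℤ) * ck k (m : ℤ) n n * ck k (-(m : ℤ)) n n := by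
      rw [← h1]
      exact hpd.mul_right _
    have hck : ∀ s : ℤ, (s = m ∨ s = -(m : ℤ)) → (p : ℤ) ∣ ck k s n n → p ≤ k * n + k := by
      intro s hs h
      have h3 : p ∣ (ck k s n n).natAbs := Int.natCast_dvd.1 h
      have h4 : p ∣ k ^ n * ∏ j ∈ range n, fa k s j := by
        rw [← ck_prod hCZ hk hs n]
        exact h3.mul_right _
      rcases hp.dvd_mul.1 h4 with h5 | h5
      · have h6 := Nat.le_of_dvd (by omega) (hp.dvd_of_dvd_pow h5)
        omega
      · obtain ⟨j, hj, h6⟩ := (hp.prime.dvd_finsetProd_iff _).1 h5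
        have h7 := Nat.le_of_dvd (fa_pos hk hs j) h6
        have h8 := fa_le hk hs (mem_range.1 hj)
        omega
    rcases hpp.dvd_or_dvd h2 with h3 | h3
    · rcases hpp.dvd_or_dvd h3 with h4 | h4
      · rcases hpp.dvd_or_dvd h4 with h5 | h5
        · rcases hpp.dvd_or_dvd h5 with h6 | h6
          · have h7 : p ∣ 2 := by exact_mod_cast h6
            have := Nat.le_of_dvd (by norm_num) h7
            omega
          · have h7 : p ∣ m := by exact_mod_cast h6
            have := Nat.le_of_dvd (by omega) h7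
            omega
        · have h7 : p ∣ k := by exact_mod_cast h5
          have := Nat.le_of_dvd (by omega) h7
          omega
      · exact hck _ (Or.inl rfl) h4
    · exact hck _ (Or.inr rfl) h3

end Pool.Agent.Helper77.SM
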